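import Pool.Agent.Results.MP_3db952_lc.LocallyFinite

/-!
Continuum many countable, locally finite projective algebras, none of which embeds in another.
-/

namespace Pool.Agent.Results.MP_3db952_lc.Antichain

open Pool.Agent.Results.MP_3db952_lc.LocallyFinite

/-- Points beyond level `n`. -/
def Far (n : ℕ) (x : ℝ) : Prop := x ≠ 0 ∧ 3 * n ≤ g x

theorem lab_far {n : ℕ} {x y : ℝ} (hx : Far n x) (hy : Far n y) : lab n x = lab n y :=
  lab_eq_iff.2 (Or.inr ⟨hx.1, hy.1, by have := hx.2; have := hy.2; omega⟩)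

theorem same_class {n : ℕ} {x y : ℝ} (hx : ¬ Far n x) (e : lab n x = lab n y) :
    (x = 0 ∧ y = 0) ∨ (x ≠ 0 ∧ y ≠ 0 ∧ g x = g y) := by
  rcases lab_eq_iff.1 e with h | ⟨h1, h2, h3⟩
  · exact Or.inl h
  · refine Or.inr ⟨h1, h2, ?_⟩
    have : ¬ 3 * n ≤ g x := fun h => hx ⟨h1, h⟩
    omega

theorem iffA {s m e p t : Prop} (h1 : s ↔ (p ↔ t)) (h2 : s ↔ (m ↔ e)) : m ↔ (p ↔ (t ↔ e)) := by
  by_cases m <;> by_cases e <;> by_cases p <;> by_cases t <;> simp_all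

theorem iffB {p q r : Prop} (n1 : ¬ (p ↔ r)) (n2 : ¬ (q ↔ r)) : q ↔ p := by
  by_cases p <;> by_cases q <;> by_cases r <;> simp_all

theorem iffC {p t : Prop} (h1 : p ↔ ¬ t) (h2 : p ↔ t) : False := by
  by_cases p <;> by_cases t <;> simp_all

theorem iffD {p q t u : Prop} (h : (p ↔ u) ↔ (q ↔ t)) (hn : ¬ (t ↔ u)) : p ↔ ¬ q := by
  by_cases p <;> by_cases q <;> by_cases t <;> by_cases u <;> simp_all

theorem core (b : Set ℕ) (t : Prop) (r c : Fin 3 → ℕ)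
    (h : ∀ i j, M b (r i) (c j) ↔ (i = j ↔ t)) :
    (∀ j, c j / 3 = r 0 / 3) ∧ (t ↔ r 0 / 3 ∈ b) ∧ ∀ l, l / 3 = r 0 / 3 → ∃ j, c j = l := by
  have p : ∀ i j, (i = j ↔ t) → r i / 3 ≤ c j / 3 := fun i j hh =>
    ((h i j).2 hh).elim le_of_lt fun x => x.1.le
  have q : ∀ i j, ¬ (i = j ↔ t) → c j / 3 ≤ r i / 3 := fun i j hh =>
    not_lt.1 fun x => hh ((h i j).1 (Or.inl x))
  have all : r 1 / 3 = r 0 / 3 ∧ r 2 / 3 = r 0 / 3 ∧ c 0 / 3 = r 0 / 3 ∧ c 1 / 3 = r 0 / 3 ∧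
      c 2 / 3 = r 0 / 3 := by
    by_cases ht : t
    · have a1 := p 0 0 (by simp [ht])
      have a2 := q 1 0 (by simp [ht])
      have a3 := p 1 1 (by simp [ht])
      have a4 := q 2 1 (by simp [ht])
      have a5 := p 2 2 (by simp [ht])
      have a6 := q 0 2 (by simp [ht])
      exact ⟨by omega, by omega, by omega, by omega, by omega⟩
    · have a1 := p 0 1 (by simp [ht])
      have a2 := q 1 1 (by simp [ht])
      have a3 := p 1 2 (by simp [ht])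
      have a4 := q 2 2 (by simp [ht])
      have a5 := p 2 0 (by simp [ht])
      have a6 := q 0 0 (by simp [ht])
      exact ⟨by omega, by omega, by omega, by omega, by omega⟩
  obtain ⟨r1, r2, c0, c1, c2⟩ := all
  have hr : ∀ i, r i / 3 = r 0 / 3 := fun i => by
    fin_cases i
    exacts [rfl, r1, r2]
  have hc : ∀ j, c j / 3 = r 0 / 3 := fun j => by
    fin_cases j
    exacts [c0, c1, c2]
  have h' : ∀ i j, (r i = c j ↔ r 0 / 3 ∈ b) ↔ (i = j ↔ t) := by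
    intro i j
    rw [← h i j]
    unfold M
    rw [hr i, hc j]
    simp
  have ht : t ↔ r 0 / 3 ∈ b := by
    by_contra hn
    have e : ∀ i j, i ≠ j → r i = c j := fun i j hij => (iffD (h' i j) hn).2 hij
    have e' : r 1 ≠ c 1 := fun x => (iffD (h' 1 1) hn).1 x rfl
    exact e' ((e 1 2 (by decide)).trans ((e 0 2 (by decide)).symm.trans (e 0 1 (by decide))))
  have e : ∀ i j, r i = c j ↔ i = j := by
    intro i j
    have := h' i j
    rw [← ht] at this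
    exact (iffA (s := (r i = c j ↔ t)) (e := t) this Iff.rfl).trans (by simp)
  refine ⟨hc, ht, fun l hl => ?_⟩
  have d01 : c 0 ≠ c 1 := fun x => absurd ((e 0 1).1 (((e 0 0).2 rfl).trans x)) (by decide)
  have d02 : c 0 ≠ c 2 := fun x => absurd ((e 0 2).1 (((e 0 0).2 rfl).trans x)) (by decide)
  have d12 : c 1 ≠ c 2 := fun x => absurd ((e 1 2).1 (((e 1 1).2 rfl).trans x)) (by decide)
  have : c 0 = l ∨ c 1 = l ∨ c 2 = l := by omega
  rcases this with x | x | x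
  exacts [⟨0, x⟩, ⟨1, x⟩, ⟨2, x⟩]

variable {s : ℝ → ℝ → Prop} {T U : ℕ → Set ℝ} {R C : ℕ → Fin 3 → Set ℝ}

theorem chain {t : ℕ → Prop}
    (h : ∀ k, Blk s (t k) (T k) (T (k + 1)) (U k) (U (k + 1)) (R k) (C k)) {k l : ℕ}
    (hkl : k ≤ l) {x : ℝ} (hx : x ∈ T l) : x ∈ T k := by
  induction hkl with
  | refl => exact hx
  | step _ ih => exact ih (((h _).hT x).2 (Or.inr hx))

theorem eventually_far {t : ℕ → Prop}
    (h : ∀ k, Blk s (t k) (T k) (T (k + 1)) (U k) (U (k + 1)) (R k) (C k)) (n : ℕ)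
    (hinv : ∀ x x', ¬ Far n x → lab n x = lab n x' → ∀ y, s x y → s x' y) :
    ∃ K, ∀ k, K ≤ k → ∀ i, ∀ x ∈ R k i, Far n x := by
  have key : ∀ k l, k < l → ∀ i j, ∀ x ∈ R k i, ∀ x' ∈ R l j, ¬ Far n x →
      lab n x ≠ lab n x' := by
    intro k l hkl i j x hx x' hx' hf e
    obtain ⟨j', y, hy, hs⟩ := (h k).red i hx
    exact (h k).lo j' x' (chain h hkl (((h l).hT x').2 (Or.inl ⟨j, hx'⟩))) y hy
      (hinv x x' hf e y hs)
  have hfin : {k | ∃ p : Fin 3 × ℝ, p.2 ∈ R k p.1 ∧ ¬ Far n p.2}.Finite := by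
    rw [← Set.finite_coe_iff]
    choose p hp using fun k : {k | ∃ p : Fin 3 × ℝ, p.2 ∈ R k p.1 ∧ ¬ Far n p.2} => k.2
    refine Finite.of_injective
      (fun k => (⟨lab n (p k).2, Nat.lt_succ_of_le (lab_le n _)⟩ : Fin (3 * n + 1 + 1))) ?_
    intro k l e
    have e' : lab n (p k).2 = lab n (p l).2 := congrArg Fin.val e
    apply Subtype.ext
    rcases lt_trichotomy k.1 l.1 with hlt | heq | hgt
    · exact absurd e' (key _ _ hlt _ _ _ (hp k).1 _ (hp l).1 (hp k).2)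
    · exact heq
    · exact absurd e'.symm (key _ _ hgt _ _ _ (hp l).1 _ (hp k).1 (hp l).2)
  obtain ⟨K, hK⟩ := hfin.bddAbove
  refine ⟨K + 1, fun k hk i x hx => ?_⟩
  by_contra hf
  have := hK (show k ∈ {k | ∃ p : Fin 3 × ℝ, p.2 ∈ R k p.1 ∧ ¬ Far n p.2} from ⟨(i, x), hx, hf⟩)
  omega

theorem step {b : Set ℕ} {n : ℕ} {ε t : Prop} {T T' U U' : Set ℝ} {R C : Fin 3 → Set ℝ}
    (hs : ∀ x y, Far n x → Far n y → (s x y ↔ (M b (g x) (g y) ↔ ε)))
    (h : Blk s t T T' U U' R C) (hR : ∀ i, ∀ x ∈ R i, Far n x) (hC : ∀ j, ∀ y ∈ C j, Far n y) :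
    ∃ β, (∀ i, ∀ x ∈ R i, g x / 3 = β) ∧ ((t ↔ ε) ↔ β ∈ b) ∧
      ∀ x ∈ T', Far n x → (ε → β < g x / 3) ∧ (¬ ε → g x / 3 < β) := by
  choose x hx using h.neR
  choose y hy using h.neC
  have pat : ∀ i j, ∀ z ∈ R i, M b (g z) (g (y j)) ↔ (i = j ↔ (t ↔ ε)) := by
    intro i j z hz
    have h1 := h.mid i j z hz _ (hy j)
    have h2 := hs z _ (hR i z hz) (hC j _ (hy j))
    exact iffA h1 h2
  obtain ⟨c1, c2, c3⟩ := core b (t ↔ ε) (fun i => g (x i)) (fun j => g (y j))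
    fun i j => pat i j _ (hx i)
  refine ⟨g (x 0) / 3, fun i z hz => ?_, c2, fun z hz hf => ⟨fun he => ?_, fun he => ?_⟩⟩
  · obtain ⟨j, hj⟩ := fin3_red (t ↔ ε) i
    obtain ⟨j', hj'⟩ := fin3_red (¬ (t ↔ ε)) i
    have h1 := (pat i j z hz).2 hj
    have h2 : ¬ M b (g z) (g (y j')) := fun hm => iffC hj' ((pat i j' z hz).1 hm)
    have e1 := c1 j
    have e2 := c1 j'
    have h3 : ¬ g z / 3 < g (y j') / 3 := fun hh => h2 (Or.inl hh)
    rcases h1 with h1 | h1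
    · omega
    · have := h1.1
      omega
  · have hn : ∀ j, ¬ M b (g z) (g (y j)) := fun j hm =>
      h.lo j z hz _ (hy j) ((hs z _ hf (hC j _ (hy j))).2 (iff_of_true hm he))
    have h3 : ¬ g z / 3 < g (y 0) / 3 := fun hh => hn 0 (Or.inl hh)
    have e1 := c1 0
    by_contra hc
    obtain ⟨l, hl, hm⟩ := M_row b (g z) True
    obtain ⟨j, hj⟩ := c3 l (by omega)
    exact hn j (hj ▸ hm.2 trivial)
  · have hn : ∀ j, M b (g z) (g (y j)) := fun j => by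
      by_contra hm
      exact h.lo j z hz _ (hy j) ((hs z _ hf (hC j _ (hy j))).2 (iff_of_false hm he))
    have h3 : g z / 3 ≤ g (y 0) / 3 := (hn 0).elim le_of_lt fun hh => hh.1.le
    have e1 := c1 0
    by_contra hc
    obtain ⟨l, hl, hm⟩ := M_row b (g z) False
    obtain ⟨j, hj⟩ := c3 l (by omega)
    exact hm.1 (hj ▸ hn j)

theorem tail_equiv {a b : Set ℕ}
    (h : ∀ k, Blk s (k ∈ a) (T k) (T (k + 1)) (U k) (U (k + 1)) (R k) (C k)) (n : ℕ)
    (hW : ∀ x y x' y', lab n x = lab n x' → lab n y = lab n y' →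
      ((x, y) ∈ S b ↔ (x', y') ∈ S b) → s x y → s x' y')
    (hT : ∀ k, ∃ m, ∀ x x', lab m x = lab m x' → x ∈ T k → x' ∈ T k) :
    ∃ K c, ∀ k, K + k ∈ a ↔ c + k ∈ b := by
  obtain ⟨K1, hK1⟩ := eventually_far h n (by
    intro x x' hf e y
    refine hW x y x' y e rfl ?_
    rcases same_class hf e with ⟨h1, h2⟩ | ⟨h1, h2, h3⟩
    · rw [h1, h2]
    · simp [S, h1, h2, h3])
  obtain ⟨K2, hK2⟩ := eventually_far (t := fun k => ¬ k ∈ a) (fun k => (h k).swap) n (by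
    intro y y' hf e x hs hs'
    refine hs (hW x y' x y rfl e.symm ?_ hs')
    rcases same_class hf e with ⟨h1, h2⟩ | ⟨h1, h2, h3⟩
    · rw [h1, h2]
    · simp [S, h1, h2, h3])
  have hR : ∀ k i, ∀ x ∈ R (K1 + K2 + k) i, Far n x := fun k => hK1 _ (by omega)
  have hC : ∀ k j, ∀ y ∈ C (K1 + K2 + k) j, Far n y := fun k => hK2 _ (by omega)
  generalize K1 + K2 = K at hR hC
  have hfar : ∀ x y x' y', Far n x → Far n y → Far n x' → Far n y' →
      (M b (g x) (g y) ↔ M b (g x') (g y')) → s x y → s x' y' := by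
    intro x y x' y' h1 h2 h3 h4 hm
    refine hW x y x' y' (lab_far h1 h3) (lab_far h2 h4) ?_
    simp [S, h1.1, h2.1, h3.1, h4.1, hm]
  obtain ⟨ε, hs⟩ : ∃ ε : Prop, ∀ x y, Far n x → Far n y → (s x y ↔ (M b (g x) (g y) ↔ ε)) := by
    obtain ⟨x0, hx0⟩ := (h (K + 0)).neR 0
    obtain ⟨j, hj⟩ := fin3_red (K + 0 ∈ a) 0
    obtain ⟨j', hj'⟩ := fin3_red (¬ K + 0 ∈ a) 0
    obtain ⟨y1, hy1⟩ := (h (K + 0)).neC j
    obtain ⟨y2, hy2⟩ := (h (K + 0)).neC j'
    have s1 := ((h (K + 0)).mid 0 j x0 hx0 y1 hy1).2 hj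
    have s2 : ¬ s x0 y2 := fun hh => iffC hj' (((h (K + 0)).mid 0 j' x0 hx0 y2 hy2).1 hh)
    have f0 := hR 0 0 x0 hx0
    have f1 := hC 0 j y1 hy1
    have f2 := hC 0 j' y2 hy2
    refine ⟨M b (g x0) (g y1), fun x y fx fy => ⟨fun hxy => ?_, fun hm => ?_⟩⟩
    · have n1 : ¬ (M b (g x0) (g y1) ↔ M b (g x0) (g y2)) := fun hm =>
        s2 (hfar _ _ _ _ f0 f1 f0 f2 hm s1)
      have n2 : ¬ (M b (g x) (g y) ↔ M b (g x0) (g y2)) := fun hm =>
        s2 (hfar _ _ _ _ fx fy f0 f2 hm hxy)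
      exact iffB n1 n2
    · exact hfar _ _ _ _ f0 f1 fx fy hm.symm s1
  choose β b1 b2 b3 using fun k => step hs (h (K + k)) (hR k) (hC k)
  have nxt : ∀ k, (ε → β k < β (k + 1)) ∧ (¬ ε → β (k + 1) < β k) := by
    intro k
    obtain ⟨x, hx⟩ := (h (K + (k + 1))).neR 0
    have := b3 k x (((h (K + (k + 1))).hT x).2 (Or.inl ⟨0, hx⟩)) (hR _ 0 x hx)
    rwa [b1 (k + 1) 0 x hx] at this
  have he : ε := by
    by_contra he
    have : ∀ k, β k + k ≤ β 0 := by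
      intro k
      induction k with
      | zero => exact le_rfl
      | succ k ih =>
        have := (nxt k).2 he
        omega
    have := this (β 0 + 1)
    omega
  have mono : StrictMono β := strictMono_nat_of_lt_succ fun k => (nxt k).1 he
  have ge : ∀ k, k ≤ β k := fun k => mono.le_apply
  obtain ⟨m, hm⟩ := hT K
  have full : ∀ x, Far m x → x ∈ T K := by
    intro x fx
    obtain ⟨z, hz⟩ := (h (K + m)).neR 0
    have e1 := b1 m 0 z hz
    have e2 := ge m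
    exact hm z x (lab_far ⟨(hR m 0 z hz).1, by omega⟩ fx)
      (chain h (Nat.le_add_right K m) (((h (K + m)).hT z).2 (Or.inl ⟨0, hz⟩)))
  have succ : ∀ k, m + n ≤ k → β (k + 1) = β k + 1 := by
    intro k hk
    obtain ⟨x, hx0, hx⟩ := g_surj (3 * (β k + 1))
    have e2 := ge k
    have stay : ∀ j, j ≤ k + 1 → x ∈ T (K + j) := by
      intro j
      induction j with
      | zero => exact fun _ => full x ⟨hx0, by omega⟩
      | succ j ih =>
        intro hj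
        rcases ((h (K + j)).hT x).1 (ih (by omega)) with ⟨i, hi⟩ | hi
        · have e3 := b1 j i x hi
          have e4 : β j ≤ β k := mono.monotone (by omega)
          omega
        · exact hi
    have e5 := (nxt k).1 he
    rcases ((h (K + (k + 1))).hT x).1 (stay (k + 1) le_rfl) with ⟨i, hi⟩ | hi
    · have e3 := b1 (k + 1) i x hi
      omega
    · have e3 := (b3 (k + 1) x hi ⟨hx0, by omega⟩).1 he
      omega
  have lin : ∀ k, β (m + n + k) = β (m + n) + k := by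
    intro k
    induction k with
    | zero => rfl
    | succ k ih =>
      have := succ (m + n + k) (by omega)
      rw [← add_assoc, this, ih, add_assoc]
  refine ⟨K + (m + n), β (m + n), fun k => ?_⟩
  have := b2 (m + n + k)
  rw [lin] at this
  rw [add_assoc, ← this]
  simp [he]

/-- A set of powers of two that codes `z` on every tail. -/
def seq (z : Set ℕ) : Set ℕ := {k | ∃ j, k = 2 ^ j ∧ (j % 2 = 0 ∨ (Nat.unpair (j / 2)).1 ∈ z)}

theorem pow_mem_seq (z : Set ℕ) (j : ℕ) :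
    2 ^ j ∈ seq z ↔ (j % 2 = 0 ∨ (Nat.unpair (j / 2)).1 ∈ z) := by
  constructor
  · rintro ⟨i, e, hi⟩
    rwa [Nat.pow_right_injective le_rfl e]
  · exact fun hj => ⟨j, rfl, hj⟩

theorem seq_inj {z w : Set ℕ} {K c : ℕ} (h : ∀ k, K + k ∈ seq z ↔ c + k ∈ seq w) : z = w := by
  have hKc : K = c := by
    obtain ⟨J, hJ⟩ : ∃ J, J = 2 * (K + c) + 1 := ⟨_, rfl⟩
    have l1 : J < 2 ^ J := Nat.lt_two_pow_self
    have l2 : 2 ^ (J + 1) = 2 * 2 ^ J := by rw [pow_succ, mul_comm]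
    have l4 : 2 ^ (J + 2) = 4 * 2 ^ J := by ring
    have l0 : K ≤ 2 ^ (J + 1) := by
      rw [l2]
      generalize 2 ^ J = A at l1
      omega
    obtain ⟨p, hp, -⟩ := (h (2 ^ (J + 1) - K)).1 (by
      rw [Nat.add_sub_cancel' l0, pow_mem_seq]
      exact Or.inl (by omega))
    have tri : 2 ^ p ≤ 2 ^ J ∨ 2 ^ p = 2 ^ (J + 1) ∨ 2 ^ (J + 2) ≤ 2 ^ p := by
      rcases lt_trichotomy p (J + 1) with hlt | heq | hgt
      · exact Or.inl (Nat.pow_le_pow_right two_pos (Nat.lt_succ_iff.1 hlt))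
      · exact Or.inr (Or.inl (by rw [heq]))
      · exact Or.inr (Or.inr (Nat.pow_le_pow_right two_pos hgt))
    rw [l2] at hp
    rw [l2, l4] at tri
    clear l0 l2 l4
    generalize 2 ^ J = A at l1 hp tri
    generalize 2 ^ p = P at hp tri
    omega
  subst hKc
  ext i
  have l1 : 2 * Nat.pair i K + 1 < 2 ^ (2 * Nat.pair i K + 1) := Nat.lt_two_pow_self
  have l2 := Nat.right_le_pair i K
  have h1 := h (2 ^ (2 * Nat.pair i K + 1) - K)
  have e : (2 * Nat.pair i K + 1) / 2 = Nat.pair i K := by omega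
  have e' : ¬ (2 * Nat.pair i K + 1) % 2 = 0 := by omega
  rw [Nat.add_sub_cancel' (by omega), pow_mem_seq, pow_mem_seq, e, Nat.unpair_pair] at h1
  simpa [e'] using h1

/-- There are continuum many countable, locally finite projective algebras, indexed by the sets
of natural numbers, none of which is isomorphic to a subalgebra of another. -/
theorem result :
    ∃ 𝒜 : Set ℕ → Set (Set (ℝ × ℝ)),
      (∀ z, IsProjAlg (𝒜 z) ∧ (𝒜 z).Countable ∧ LocFin (𝒜 z)) ∧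
        ∀ z w, z ≠ w → ¬ ∃ ℬ : Set (Set (ℝ × ℝ)), ℬ ⊆ 𝒜 w ∧ IsProjAlg ℬ ∧
          ∃ f : Set (ℝ × ℝ) → Set (ℝ × ℝ), IsIso (𝒜 z) ℬ f := by
  refine ⟨fun z => Alg (seq z), fun z => ⟨Alg_alg _, Alg_countable _, Alg_locFin _⟩, ?_⟩
  rintro z w hzw ⟨ℬ, hB, -, f, hf⟩
  obtain ⟨n, hn⟩ := Set.mem_iUnion.1 (hB (hf.bijOn.mapsTo (S_mem (seq z))))
  obtain ⟨K, c, hKc⟩ := tail_equiv (b := seq w)
    (T := fun n => {x | (x, (0 : ℝ)) ∈ f (rowS fun k => 3 * n ≤ k)})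
    (U := fun n => {y | ((0 : ℝ), y) ∈ f (colS fun k => 3 * n ≤ k)}) (blk_of_iso hf) n
    (fun x y x' y' e1 e2 e3 => hn (x, y) (x', y') (col_eq_iff.2 ⟨e1, e2, e3⟩)) (by
      intro k
      obtain ⟨m, hm⟩ := Set.mem_iUnion.1 (hB (hf.bijOn.mapsTo (rowS_mem (seq z) (dec_ge k))))
      exact ⟨m, fun x x' e => hm (x, 0) (x', 0) (col_eq_iff.2 ⟨e, rfl, by simp [S]⟩)⟩)
  exact hzw (seq_inj hKc)

end Pool.Agent.Results.MP_3db952_lc.Antichain
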