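import Mathlib

set_option autoImplicit false

namespace Pool.Agent.Results.MP_3db952_lc.LocallyFinite

/-- The axis `X = {(x,0)}` of the plane. -/
def axisX : Set (ℝ × ℝ) := {p | p.2 = 0}

/-- The axis `Y = {(0,y)}` of the plane. -/
def axisY : Set (ℝ × ℝ) := {p | p.1 = 0}

/-- `π₁(S) = {(x,0) : ∃ y, (x,y) ∈ S}`. -/
def proj1 (S : Set (ℝ × ℝ)) : Set (ℝ × ℝ) := {p | p.2 = 0 ∧ ∃ y : ℝ, (p.1, y) ∈ S}

/-- `π₂(S) = {(0,y) : ∃ x, (x,y) ∈ S}`. -/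
def proj2 (S : Set (ℝ × ℝ)) : Set (ℝ × ℝ) := {p | p.1 = 0 ∧ ∃ x : ℝ, (x, p.2) ∈ S}

/-- The direct product `A ⊗ B = {(x,y) : (x,0) ∈ A, (0,y) ∈ B}`. -/
def box (A B : Set (ℝ × ℝ)) : Set (ℝ × ℝ) := {p | (p.1, (0 : ℝ)) ∈ A ∧ ((0 : ℝ), p.2) ∈ B}

/-- A projective algebra of plane sets: a family of subsets of the plane closed under finite
unions, finite intersections (the empty ones included), complement, both projections, and the
direct product of a member contained in `X` with a member contained in `Y`. -/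
structure IsProjAlg (𝒜 : Set (Set (ℝ × ℝ))) : Prop where
  empty_mem : (∅ : Set (ℝ × ℝ)) ∈ 𝒜
  univ_mem : (Set.univ : Set (ℝ × ℝ)) ∈ 𝒜
  union_mem : ∀ S ∈ 𝒜, ∀ T ∈ 𝒜, S ∪ T ∈ 𝒜
  inter_mem : ∀ S ∈ 𝒜, ∀ T ∈ 𝒜, S ∩ T ∈ 𝒜
  compl_mem : ∀ S ∈ 𝒜, Sᶜ ∈ 𝒜
  proj1_mem : ∀ S ∈ 𝒜, proj1 S ∈ 𝒜
  proj2_mem : ∀ S ∈ 𝒜, proj2 S ∈ 𝒜
  box_mem : ∀ A ∈ 𝒜, ∀ B ∈ 𝒜, A ⊆ axisX → B ⊆ axisY → box A B ∈ 𝒜

/-- `f` restricts to an isomorphism of projective algebras from `𝒜` onto `ℬ`: a bijection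
preserving the Boolean operations, both projections and the direct product. -/
structure IsIso (𝒜 ℬ : Set (Set (ℝ × ℝ))) (f : Set (ℝ × ℝ) → Set (ℝ × ℝ)) : Prop where
  bijOn : Set.BijOn f 𝒜 ℬ
  map_union : ∀ S ∈ 𝒜, ∀ T ∈ 𝒜, f (S ∪ T) = f S ∪ f T
  map_inter : ∀ S ∈ 𝒜, ∀ T ∈ 𝒜, f (S ∩ T) = f S ∩ f T
  map_compl : ∀ S ∈ 𝒜, f Sᶜ = (f S)ᶜ
  map_proj1 : ∀ S ∈ 𝒜, f (proj1 S) = proj1 (f S)
  map_proj2 : ∀ S ∈ 𝒜, f (proj2 S) = proj2 (f S)
  map_box : ∀ A ∈ 𝒜, ∀ B ∈ 𝒜, A ⊆ axisX → B ⊆ axisY → f (box A B) = box (f A) (f B)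

/-- `𝒜` is locally finite: every finite subfamily of `𝒜` lies in a finite projective algebra
contained in `𝒜`. -/
def LocFin (𝒜 : Set (Set (ℝ × ℝ))) : Prop :=
  ∀ F : Set (Set (ℝ × ℝ)), F ⊆ 𝒜 → F.Finite →
    ∃ ℬ : Set (Set (ℝ × ℝ)), ℬ.Finite ∧ IsProjAlg ℬ ∧ F ⊆ ℬ ∧ ℬ ⊆ 𝒜

/-! One block of the ordinal sum, seen in an arbitrary representation. -/

/-- The first block of a relation `s` between `T` and `U`. -/
structure Blk (s : ℝ → ℝ → Prop) (b : Prop) (T T' U U' : Set ℝ) (R C : Fin 3 → Set ℝ) :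
    Prop where
  hT : ∀ x, x ∈ T ↔ (∃ i, x ∈ R i) ∨ x ∈ T'
  hU : ∀ y, y ∈ U ↔ (∃ j, y ∈ C j) ∨ y ∈ U'
  neR : ∀ i, (R i).Nonempty
  neC : ∀ j, (C j).Nonempty
  mid : ∀ i j, ∀ x ∈ R i, ∀ y ∈ C j, (s x y ↔ (i = j ↔ b))
  up : ∀ i, ∀ x ∈ R i, ∀ y ∈ U', s x y
  lo : ∀ j, ∀ x ∈ T', ∀ y ∈ C j, ¬ s x y

/-- Rows of `T` whose trace on `U` is not maximal. -/
def nxt (s : ℝ → ℝ → Prop) (T U : Set ℝ) : Set ℝ :=
  {x | x ∈ T ∧ ∃ z ∈ T, (∀ y ∈ U, s x y → s z y) ∧ ∃ y ∈ U, s z y ∧ ¬ s x y}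

theorem fin3_red (b : Prop) (i : Fin 3) : ∃ j : Fin 3, (i = j ↔ b) := by
  by_cases hb : b
  · exact ⟨i, by simp [hb]⟩
  · refine ⟨i + 1, ?_⟩
    simp only [hb, iff_false]
    revert i
    decide

theorem fin3_inj (b : Prop) (i k : Fin 3) (h : ∀ j : Fin 3, (i = j ↔ b) → (k = j ↔ b)) :
    i = k := by
  by_cases hb : b
  · simp only [hb, iff_true] at h
    exact (h i rfl).symm
  · simp only [hb, iff_false] at h
    by_contra hne
    exact h k hne rfl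

theorem fin3_common (i k : Fin 3) : ∃ j : Fin 3, i ≠ j ∧ k ≠ j := by
  revert i k
  decide

theorem Blk.swap {s : ℝ → ℝ → Prop} {b : Prop} {T T' U U' : Set ℝ} {R C : Fin 3 → Set ℝ}
    (h : Blk s b T T' U U' R C) : Blk (fun y x => ¬ s x y) (¬ b) U U' T T' C R where
  hT := h.hU
  hU := h.hT
  neR := h.neC
  neC := h.neR
  mid := by
    intro j i y hy x hx
    rw [h.mid i j x hx y hy]
    by_cases hb : b <;> simp [hb, eq_comm]
  up := fun j y hy x hx => h.lo j x hx y hy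
  lo := fun i y hy x hx hn => hn (h.up i x hx y hy)

theorem Blk.red {s : ℝ → ℝ → Prop} {b : Prop} {T T' U U' : Set ℝ} {R C : Fin 3 → Set ℝ}
    (h : Blk s b T T' U U' R C) (i : Fin 3) {x : ℝ} (hx : x ∈ R i) :
    ∃ j, ∃ y ∈ C j, s x y := by
  obtain ⟨j, hj⟩ := fin3_red b i
  obtain ⟨y, hy⟩ := h.neC j
  exact ⟨j, y, hy, (h.mid i j x hx y hy).2 hj⟩

theorem Blk.tail {s : ℝ → ℝ → Prop} {b : Prop} {T T' U U' : Set ℝ} {R C : Fin 3 → Set ℝ}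
    (h : Blk s b T T' U U' R C) : nxt s T U = T' := by
  ext x
  constructor
  · rintro ⟨hx, z, hz, hsub, y, hy, hzy, hxy⟩
    rcases (h.hT x).1 hx with ⟨i, hi⟩ | hx'
    · exfalso
      rcases (h.hT z).1 hz with ⟨k, hk⟩ | hz'
      · have hik : i = k := by
          refine fin3_inj b i k fun j hj => ?_
          obtain ⟨w, hw⟩ := h.neC j
          exact (h.mid k j z hk w hw).1
            (hsub w ((h.hU w).2 (Or.inl ⟨j, hw⟩)) ((h.mid i j x hi w hw).2 hj))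
        subst hik
        rcases (h.hU y).1 hy with ⟨j, hj⟩ | hy'
        · exact hxy ((h.mid i j x hi y hj).2 ((h.mid i j z hk y hj).1 hzy))
        · exact hxy (h.up i x hi y hy')
      · obtain ⟨j, w, hw, hs⟩ := h.red i hi
        exact h.lo j z hz' w hw (hsub w ((h.hU w).2 (Or.inl ⟨j, hw⟩)) hs)
    · exact hx'
  · intro hx
    obtain ⟨z, hz⟩ := h.neR 0
    obtain ⟨j, w, hw, hs⟩ := h.red 0 hz
    refine ⟨(h.hT x).2 (Or.inr hx), z, (h.hT z).2 (Or.inl ⟨0, hz⟩), ?_,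
      w, (h.hU w).2 (Or.inl ⟨j, hw⟩), hs, h.lo j x hx w hw⟩
    intro y hy hxy
    rcases (h.hU y).1 hy with ⟨k, hk⟩ | hy'
    · exact absurd hxy (h.lo k x hx y hk)
    · exact h.up 0 z hz y hy'

theorem Blk.kind {s : ℝ → ℝ → Prop} {b : Prop} {T T' U U' : Set ℝ} {R C : Fin 3 → Set ℝ}
    (h : Blk s b T T' U U' R C) :
    (∃ x ∈ T, x ∉ T' ∧ ∃ z ∈ T, z ∉ T' ∧ ∀ y ∈ U, s x y → s z y → y ∈ U') ↔ b := by
  have hR : ∀ i, ∀ x ∈ R i, x ∉ T' := by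
    intro i x hx hx'
    obtain ⟨j, w, hw, hs⟩ := h.red i hx
    exact h.lo j x hx' w hw hs
  have hC : ∀ j, ∀ y ∈ C j, y ∉ U' := by
    intro j y hy hy'
    obtain ⟨i, w, hw, hs⟩ := h.swap.red j hy
    exact hs (h.up i w hw y hy')
  constructor
  · rintro ⟨x, hx, hx', z, hz, hz', hall⟩
    by_contra hb
    obtain ⟨i, hi⟩ := ((h.hT x).1 hx).resolve_right hx'
    obtain ⟨k, hk⟩ := ((h.hT z).1 hz).resolve_right hz'
    obtain ⟨j, h1, h2⟩ := fin3_common i k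
    obtain ⟨y, hy⟩ := h.neC j
    exact hC j y hy (hall y ((h.hU y).2 (Or.inl ⟨j, hy⟩))
      ((h.mid i j x hi y hy).2 (by simp [hb, h1])) ((h.mid k j z hk y hy).2 (by simp [hb, h2])))
  · intro hb
    obtain ⟨x, hx⟩ := h.neR 0
    obtain ⟨z, hz⟩ := h.neR 1
    refine ⟨x, (h.hT x).2 (Or.inl ⟨0, hx⟩), hR 0 x hx, z, (h.hT z).2 (Or.inl ⟨1, hz⟩),
      hR 1 z hz, ?_⟩
    intro y hy h1 h2
    rcases (h.hU y).1 hy with ⟨j, hj⟩ | hy'
    · have e1 := ((h.mid 0 j x hx y hj).1 h1).2 hb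
      have e2 := ((h.mid 1 j z hz y hj).1 h2).2 hb
      exact absurd (e1.trans e2.symm) (by decide)
    · exact hy'

/-- The tails read off from a relation. -/
def tails (s : ℝ → ℝ → Prop) (T U : Set ℝ) : ℕ → Set ℝ × Set ℝ
  | 0 => (T, U)
  | n + 1 => (nxt s (tails s T U n).1 (tails s T U n).2,
      nxt (fun y x => ¬ s x y) (tails s T U n).2 (tails s T U n).1)

/-- The set of natural numbers read off from a relation. -/
def code (s : ℝ → ℝ → Prop) (T U : Set ℝ) : Set ℕ :=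
  {n | ∃ x ∈ (tails s T U n).1, x ∉ (tails s T U (n + 1)).1 ∧
    ∃ z ∈ (tails s T U n).1, z ∉ (tails s T U (n + 1)).1 ∧
      ∀ y ∈ (tails s T U n).2, s x y → s z y → y ∈ (tails s T U (n + 1)).2}

theorem code_eq {s : ℝ → ℝ → Prop} {a : Set ℕ} {T U : ℕ → Set ℝ} {R C : ℕ → Fin 3 → Set ℝ}
    (h : ∀ n, Blk s (n ∈ a) (T n) (T (n + 1)) (U n) (U (n + 1)) (R n) (C n)) :
    code s (T 0) (U 0) = a := by
  have ht : ∀ n, tails s (T 0) (U 0) n = (T n, U n) := by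
    intro n
    induction n with
    | zero => rfl
    | succ n ih =>
      simp only [tails, ih]
      rw [(h n).tail, (h n).swap.tail]
  ext n
  simp only [code, Set.mem_ofPred_eq, ht]
  exact (h n).kind

/-! The algebras. -/

/-- The class of a nonzero real. -/
noncomputable def g (x : ℝ) : ℕ := ⌊|x|⌋₊

theorem g_surj (k : ℕ) : ∃ x : ℝ, x ≠ 0 ∧ g x = k := by
  refine ⟨(k : ℝ) + 1 / 2, by positivity, ?_⟩
  unfold g
  rw [abs_of_pos (by positivity), Nat.floor_eq_iff (by positivity)]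
  constructor <;> linarith

/-- The ordinal sum of the blocks. -/
def M (a : Set ℕ) (k l : ℕ) : Prop := k / 3 < l / 3 ∨ (k / 3 = l / 3 ∧ (k = l ↔ k / 3 ∈ a))

/-- The plane set. -/
def S (a : Set ℕ) : Set (ℝ × ℝ) := {p | p.1 ≠ 0 ∧ p.2 ≠ 0 ∧ M a (g p.1) (g p.2)}

open Classical in
/-- The label of a real at level `n`. -/
noncomputable def lab (n : ℕ) (x : ℝ) : ℕ := if x = 0 then 0 else min (g x) (3 * n) + 1

/-- The colour of a point at level `n`. -/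
noncomputable def col (a : Set ℕ) (n : ℕ) (p : ℝ × ℝ) : ℕ × ℕ × Prop :=
  (lab n p.1, lab n p.2, p ∈ S a)

/-- The finite algebra of level `n`. -/
def Lev (a : Set ℕ) (n : ℕ) : Set (Set (ℝ × ℝ)) :=
  {W | ∀ p q, col a n p = col a n q → p ∈ W → q ∈ W}

theorem lab_eq_iff {n : ℕ} {x y : ℝ} : lab n x = lab n y ↔
    (x = 0 ∧ y = 0) ∨ (x ≠ 0 ∧ y ≠ 0 ∧ min (g x) (3 * n) = min (g y) (3 * n)) := by
  unfold lab
  by_cases hx : x = 0 <;> by_cases hy : y = 0 <;> simp [hx, hy]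

theorem col_eq_iff {a : Set ℕ} {n : ℕ} {p q : ℝ × ℝ} : col a n p = col a n q ↔
    lab n p.1 = lab n q.1 ∧ lab n p.2 = lab n q.2 ∧ (p ∈ S a ↔ q ∈ S a) := by
  simp [col]

theorem lab_mono {m n : ℕ} (h : m ≤ n) {x y : ℝ} (e : lab n x = lab n y) : lab m x = lab m y := by
  rw [lab_eq_iff] at e ⊢
  rcases e with e | ⟨h1, h2, h3⟩
  · exact Or.inl e
  · exact Or.inr ⟨h1, h2, by omega⟩

theorem Lev_mono (a : Set ℕ) {m n : ℕ} (h : m ≤ n) : Lev a m ⊆ Lev a n := by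
  intro W hW p q e
  rw [col_eq_iff] at e
  exact hW p q (col_eq_iff.2 ⟨lab_mono h e.1, lab_mono h e.2.1, e.2.2⟩)

theorem lab_le (n : ℕ) (x : ℝ) : lab n x ≤ 3 * n + 1 := by
  unfold lab
  split_ifs <;> omega

theorem Lev_finite (a : Set ℕ) (n : ℕ) : (Lev a n).Finite := by
  have hr : (Set.range (col a n)).Finite := by
    refine Set.Finite.subset (((Set.finite_Iic (3 * n + 1)).prod
      ((Set.finite_Iic (3 * n + 1)).prod (Set.finite_univ (α := Prop))))) ?_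
    rintro _ ⟨p, rfl⟩
    exact ⟨lab_le n _, lab_le n _, trivial⟩
  refine Set.Finite.subset (hr.finite_subsets.image (fun V => col a n ⁻¹' V)) ?_
  intro W hW
  refine ⟨col a n '' W, Set.image_subset_range _ _, ?_⟩
  ext p
  constructor
  · rintro ⟨q, hq, e⟩
    exact hW q p e hq
  · intro hp
    exact ⟨p, hp, rfl⟩

theorem M_row (a : Set ℕ) (k : ℕ) (c : Prop) : ∃ l, l / 3 = k / 3 ∧ (M a k l ↔ c) := by
  by_cases h : (k / 3 ∈ a ↔ c)
  · exact ⟨k, rfl, by simp [M, h]⟩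
  · obtain ⟨l, h1, h2⟩ : ∃ l, l / 3 = k / 3 ∧ k ≠ l := by
      by_cases h0 : k % 3 = 0
      · exact ⟨k + 1, by omega, by omega⟩
      · exact ⟨k - 1, by omega, by omega⟩
    refine ⟨l, h1, ?_⟩
    simp only [M, h1, lt_self_iff_false, true_and, false_or, h2, false_iff]
    tauto

theorem M_col (a : Set ℕ) (l : ℕ) (c : Prop) : ∃ k, k / 3 = l / 3 ∧ (M a k l ↔ c) := by
  by_cases h : (l / 3 ∈ a ↔ c)
  · exact ⟨l, rfl, by simp [M, h]⟩
  · obtain ⟨k, h1, h2⟩ : ∃ k, k / 3 = l / 3 ∧ k ≠ l := by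
      by_cases h0 : l % 3 = 0
      · exact ⟨l + 1, by omega, by omega⟩
      · exact ⟨l - 1, by omega, by omega⟩
    refine ⟨k, h1, ?_⟩
    simp only [M, h1, lt_self_iff_false, true_and, false_or, h2, false_iff]
    tauto

theorem forth1 (a : Set ℕ) (n : ℕ) {x x' : ℝ} (e : lab n x = lab n x') (y : ℝ) :
    ∃ y', col a n (x, y) = col a n (x', y') := by
  simp only [col_eq_iff]
  rcases lab_eq_iff.1 e with ⟨h1, h2⟩ | ⟨h1, h2, h3⟩
  · exact ⟨y, e, rfl, by simp [S, h1, h2]⟩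
  by_cases hy : y = 0
  · exact ⟨y, e, rfl, by simp [S, hy]⟩
  by_cases hxx : g x = g x'
  · exact ⟨y, e, rfl, by simp [S, h1, h2, hxx]⟩
  by_cases hl : g y < 3 * n
  · refine ⟨y, e, rfl, ?_⟩
    have n1 : ¬ M a (g x) (g y) := by unfold M; omega
    have n2 : ¬ M a (g x') (g y) := by unfold M; omega
    simp [S, n1, n2]
  · obtain ⟨l, hl1, hl2⟩ := M_row a (g x') (M a (g x) (g y))
    obtain ⟨y', hy', rfl⟩ := g_surj l
    refine ⟨y', e, lab_eq_iff.2 (Or.inr ⟨hy, hy', by omega⟩), ?_⟩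
    simp [S, h1, h2, hy, hy', hl2]

theorem forth2 (a : Set ℕ) (n : ℕ) {y y' : ℝ} (e : lab n y = lab n y') (x : ℝ) :
    ∃ x', col a n (x, y) = col a n (x', y') := by
  simp only [col_eq_iff]
  rcases lab_eq_iff.1 e with ⟨h1, h2⟩ | ⟨h1, h2, h3⟩
  · exact ⟨x, rfl, e, by simp [S, h1, h2]⟩
  by_cases hx : x = 0
  · exact ⟨x, rfl, e, by simp [S, hx]⟩
  by_cases hyy : g y = g y'
  · exact ⟨x, rfl, e, by simp [S, h1, h2, hyy]⟩
  by_cases hl : g x < 3 * n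
  · refine ⟨x, rfl, e, ?_⟩
    have n1 : M a (g x) (g y) := Or.inl (by omega)
    have n2 : M a (g x) (g y') := Or.inl (by omega)
    simp [S, n1, n2, h1, h2]
  · obtain ⟨k, hk1, hk2⟩ := M_col a (g y') (M a (g x) (g y))
    obtain ⟨x', hx', rfl⟩ := g_surj k
    refine ⟨x', lab_eq_iff.2 (Or.inr ⟨hx, hx', by omega⟩), e, ?_⟩
    simp [S, h1, h2, hx, hx', hk2]

theorem lab_zero {n : ℕ} {x y : ℝ} (e : lab n x = lab n y) (hx : x = 0) : y = 0 := by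
  rcases lab_eq_iff.1 e with h | h
  · exact h.2
  · exact absurd hx h.1

theorem Lev_alg (a : Set ℕ) (n : ℕ) : IsProjAlg (Lev a n) where
  empty_mem := fun _ _ _ h => h
  univ_mem := fun _ _ _ h => h
  union_mem := fun _ hV _ hW p q e h => h.imp (hV p q e) (hW p q e)
  inter_mem := fun _ hV _ hW p q e h => ⟨hV p q e h.1, hW p q e h.2⟩
  compl_mem := fun _ hV p q e h hq => h (hV q p e.symm hq)
  proj1_mem := by
    rintro W hW p q e ⟨h0, y, hy⟩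
    rw [col_eq_iff] at e
    obtain ⟨y', e'⟩ := forth1 a n e.1 y
    exact ⟨lab_zero e.2.1 h0, y', hW _ _ e' hy⟩
  proj2_mem := by
    rintro W hW p q e ⟨h0, x, hx⟩
    rw [col_eq_iff] at e
    obtain ⟨x', e'⟩ := forth2 a n e.2.1 x
    exact ⟨lab_zero e.1 h0, x', hW _ _ e' hx⟩
  box_mem := by
    rintro V hV W hW - - p q e ⟨h1, h2⟩
    rw [col_eq_iff] at e
    exact ⟨hV (p.1, 0) (q.1, 0) (col_eq_iff.2 ⟨e.1, rfl, by simp [S]⟩) h1,
      hW (0, p.2) (0, q.2) (col_eq_iff.2 ⟨rfl, e.2.1, by simp [S]⟩) h2⟩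

/-- The locally finite algebra attached to `a`. -/
def Alg (a : Set ℕ) : Set (Set (ℝ × ℝ)) := ⋃ n, Lev a n

theorem Lev_sub (a : Set ℕ) (n : ℕ) : Lev a n ⊆ Alg a := Set.subset_iUnion (Lev a) n

theorem Alg_two {a : Set ℕ} {V W : Set (ℝ × ℝ)} (hV : V ∈ Alg a) (hW : W ∈ Alg a) :
    ∃ n, V ∈ Lev a n ∧ W ∈ Lev a n := by
  obtain ⟨m, hm⟩ := Set.mem_iUnion.1 hV
  obtain ⟨n, hn⟩ := Set.mem_iUnion.1 hW
  exact ⟨max m n, Lev_mono a (le_max_left m n) hm, Lev_mono a (le_max_right m n) hn⟩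

theorem Alg_alg (a : Set ℕ) : IsProjAlg (Alg a) where
  empty_mem := Lev_sub a 0 (Lev_alg a 0).empty_mem
  univ_mem := Lev_sub a 0 (Lev_alg a 0).univ_mem
  union_mem := fun _ hV _ hW => by
    obtain ⟨n, h1, h2⟩ := Alg_two hV hW
    exact Lev_sub a n ((Lev_alg a n).union_mem _ h1 _ h2)
  inter_mem := fun _ hV _ hW => by
    obtain ⟨n, h1, h2⟩ := Alg_two hV hW
    exact Lev_sub a n ((Lev_alg a n).inter_mem _ h1 _ h2)
  compl_mem := fun _ hV => by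
    obtain ⟨n, h1, -⟩ := Alg_two hV hV
    exact Lev_sub a n ((Lev_alg a n).compl_mem _ h1)
  proj1_mem := fun _ hV => by
    obtain ⟨n, h1, -⟩ := Alg_two hV hV
    exact Lev_sub a n ((Lev_alg a n).proj1_mem _ h1)
  proj2_mem := fun _ hV => by
    obtain ⟨n, h1, -⟩ := Alg_two hV hV
    exact Lev_sub a n ((Lev_alg a n).proj2_mem _ h1)
  box_mem := fun _ hV _ hW hX hY => by
    obtain ⟨n, h1, h2⟩ := Alg_two hV hW
    exact Lev_sub a n ((Lev_alg a n).box_mem _ h1 _ h2 hX hY)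

theorem Alg_countable (a : Set ℕ) : (Alg a).Countable :=
  Set.countable_iUnion fun n => (Lev_finite a n).countable

theorem Alg_locFin (a : Set ℕ) : LocFin (Alg a) := by
  intro F hF hfin
  have : ∃ n, F ⊆ Lev a n := by
    induction F, hfin using Set.Finite.induction_on with
    | empty => exact ⟨0, Set.empty_subset _⟩
    | @insert W F _ _ ih =>
      obtain ⟨n, hn⟩ := ih ((Set.subset_insert _ _).trans hF)
      obtain ⟨m, hm⟩ := Set.mem_iUnion.1 (hF (Set.mem_insert W F))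
      exact ⟨max m n, Set.insert_subset (Lev_mono a (le_max_left m n) hm)
        (hn.trans (Lev_mono a (le_max_right m n)))⟩
  obtain ⟨n, hn⟩ := this
  exact ⟨Lev a n, Lev_finite a n, Lev_alg a n, hn, Lev_sub a n⟩

/-- Points of the axis `X` off the origin with class in `P`. -/
def rowS (P : ℕ → Prop) : Set (ℝ × ℝ) := {p | p.2 = 0 ∧ p.1 ≠ 0 ∧ P (g p.1)}

/-- Points of the axis `Y` off the origin with class in `P`. -/
def colS (P : ℕ → Prop) : Set (ℝ × ℝ) := {p | p.1 = 0 ∧ p.2 ≠ 0 ∧ P (g p.2)}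

/-- `P` is decided at level `n`. -/
def Dec (n : ℕ) (P : ℕ → Prop) : Prop := ∀ k l, min k (3 * n) = min l (3 * n) → P k → P l

theorem rowS_mem (a : Set ℕ) {n : ℕ} {P : ℕ → Prop} (h : Dec n P) : rowS P ∈ Alg a := by
  refine Lev_sub a n ?_
  rintro p q e ⟨h0, h1, h2⟩
  rw [col_eq_iff] at e
  rcases lab_eq_iff.1 e.1 with e1 | ⟨-, e2, e3⟩
  · exact absurd e1.1 h1
  · exact ⟨lab_zero e.2.1 h0, e2, h _ _ e3 h2⟩

theorem colS_mem (a : Set ℕ) {n : ℕ} {P : ℕ → Prop} (h : Dec n P) : colS P ∈ Alg a := by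
  refine Lev_sub a n ?_
  rintro p q e ⟨h0, h1, h2⟩
  rw [col_eq_iff] at e
  rcases lab_eq_iff.1 e.2.1 with e1 | ⟨-, e2, e3⟩
  · exact absurd e1.1 h1
  · exact ⟨lab_zero e.1 h0, e2, h _ _ e3 h2⟩

theorem S_mem (a : Set ℕ) : S a ∈ Alg a :=
  Lev_sub a 0 fun _ _ e h => (col_eq_iff.1 e).2.2.1 h

theorem dec_ge (n : ℕ) : Dec n (fun k => 3 * n ≤ k) := by
  intro k l e h
  omega

theorem dec_eq (n : ℕ) (i : Fin 3) : Dec (n + 1) (fun k => k = 3 * n + i) := by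
  intro k l e h
  have := i.2
  omega

section iso

variable {𝒜 ℬ : Set (Set (ℝ × ℝ))} {f : Set (ℝ × ℝ) → Set (ℝ × ℝ)}

theorem map_empty (h : IsProjAlg 𝒜) (hf : IsIso 𝒜 ℬ f) : f ∅ = ∅ := by
  have h1 := hf.map_inter ∅ h.empty_mem (∅ : Set (ℝ × ℝ))ᶜ (h.compl_mem _ h.empty_mem)
  rw [hf.map_compl _ h.empty_mem, Set.inter_compl_self, Set.inter_compl_self] at h1
  exact h1

theorem map_ne (h : IsProjAlg 𝒜) (hf : IsIso 𝒜 ℬ f) {V : Set (ℝ × ℝ)} (hV : V ∈ 𝒜)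
    (hne : V.Nonempty) : (f V).Nonempty := by
  rw [Set.nonempty_iff_ne_empty] at hne ⊢
  intro he
  exact hne (hf.bijOn.injOn hV h.empty_mem (by rw [he, map_empty h hf]))

theorem map_sub (hf : IsIso 𝒜 ℬ f) {V W : Set (ℝ × ℝ)} (hV : V ∈ 𝒜) (hW : W ∈ 𝒜)
    (hs : V ⊆ W) : f V ⊆ f W := by
  have := hf.map_union V hV W hW
  rw [Set.union_eq_self_of_subset_left hs] at this
  rw [this]
  exact Set.subset_union_left

theorem map_X (hf : IsIso 𝒜 ℬ f) {V : Set (ℝ × ℝ)} (hV : V ∈ 𝒜) (hs : V ⊆ axisX) :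
    f V ⊆ axisX := by
  have e : proj1 V = V := by
    ext ⟨x, y⟩
    constructor
    · rintro ⟨h0, z, hz⟩
      have h1 : z = 0 := hs hz
      simp only at h0
      rw [h0, ← h1]
      exact hz
    · intro hp
      exact ⟨hs hp, y, hp⟩
  have := hf.map_proj1 V hV
  rw [e] at this
  rw [this]
  exact fun p hp => hp.1

theorem map_Y (hf : IsIso 𝒜 ℬ f) {V : Set (ℝ × ℝ)} (hV : V ∈ 𝒜) (hs : V ⊆ axisY) :
    f V ⊆ axisY := by
  have e : proj2 V = V := by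
    ext ⟨x, y⟩
    constructor
    · rintro ⟨h0, z, hz⟩
      have h1 : z = 0 := hs hz
      simp only at h0
      rw [h0, ← h1]
      exact hz
    · intro hp
      exact ⟨hs hp, x, hp⟩
  have := hf.map_proj2 V hV
  rw [e] at this
  rw [this]
  exact fun p hp => hp.1

theorem map_box_sub (h : IsProjAlg 𝒜) (hf : IsIso 𝒜 ℬ f) {V W Z : Set (ℝ × ℝ)} (hV : V ∈ 𝒜)
    (hW : W ∈ 𝒜) (hZ : Z ∈ 𝒜) (hX : V ⊆ axisX) (hY : W ⊆ axisY) (hs : box V W ⊆ Z)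
    {x y : ℝ} (hx : (x, (0 : ℝ)) ∈ f V) (hy : ((0 : ℝ), y) ∈ f W) : (x, y) ∈ f Z := by
  refine map_sub hf (h.box_mem V hV W hW hX hY) hZ hs ?_
  rw [hf.map_box V hV W hW hX hY]
  exact ⟨hx, hy⟩

end iso

theorem split_row (n : ℕ) : rowS (fun k => 3 * n ≤ k) =
    ((rowS (fun k => k = 3 * n + (0 : Fin 3)) ∪ rowS (fun k => k = 3 * n + (1 : Fin 3))) ∪
      rowS (fun k => k = 3 * n + (2 : Fin 3))) ∪ rowS (fun k => 3 * (n + 1) ≤ k) := by
  ext p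
  simp only [rowS, Set.mem_union, Set.mem_ofPred_eq, Fin.val_zero, Fin.val_one, Fin.val_two]
  by_cases h1 : p.2 = 0 <;> by_cases h2 : p.1 = 0 <;> simp [h1, h2]
  omega

theorem split_col (n : ℕ) : colS (fun k => 3 * n ≤ k) =
    ((colS (fun k => k = 3 * n + (0 : Fin 3)) ∪ colS (fun k => k = 3 * n + (1 : Fin 3))) ∪
      colS (fun k => k = 3 * n + (2 : Fin 3))) ∪ colS (fun k => 3 * (n + 1) ≤ k) := by
  ext p
  simp only [colS, Set.mem_union, Set.mem_ofPred_eq, Fin.val_zero, Fin.val_one, Fin.val_two]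
  by_cases h1 : p.1 = 0 <;> by_cases h2 : p.2 = 0 <;> simp [h1, h2]
  omega

theorem rowS_X (P : ℕ → Prop) : rowS P ⊆ axisX := fun _ hp => hp.1

theorem colS_Y (P : ℕ → Prop) : colS P ⊆ axisY := fun _ hp => hp.1

theorem blk_of_iso {a : Set ℕ} {ℬ : Set (Set (ℝ × ℝ))} {f : Set (ℝ × ℝ) → Set (ℝ × ℝ)}
    (hf : IsIso (Alg a) ℬ f) (n : ℕ) :
    Blk (fun x y => (x, y) ∈ f (S a)) (n ∈ a)
      {x | (x, (0 : ℝ)) ∈ f (rowS fun k => 3 * n ≤ k)}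
      {x | (x, (0 : ℝ)) ∈ f (rowS fun k => 3 * (n + 1) ≤ k)}
      {y | ((0 : ℝ), y) ∈ f (colS fun k => 3 * n ≤ k)}
      {y | ((0 : ℝ), y) ∈ f (colS fun k => 3 * (n + 1) ≤ k)}
      (fun i => {x | (x, (0 : ℝ)) ∈ f (rowS fun k => k = 3 * n + i)})
      (fun j => {y | ((0 : ℝ), y) ∈ f (colS fun k => k = 3 * n + j)}) := by
  have hA := Alg_alg a
  have r : ∀ i : Fin 3, rowS (fun k => k = 3 * n + i) ∈ Alg a := fun i => rowS_mem a (dec_eq n i)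
  have c : ∀ i : Fin 3, colS (fun k => k = 3 * n + i) ∈ Alg a := fun i => colS_mem a (dec_eq n i)
  have rt := rowS_mem a (dec_ge (n + 1))
  have ct := colS_mem a (dec_ge (n + 1))
  have hS := S_mem a
  have hSc := hA.compl_mem _ hS
  have pos : ∀ {P Q : ℕ → Prop}, rowS P ∈ Alg a → colS Q ∈ Alg a →
      (∀ k l, P k → Q l → M a k l) → ∀ x y : ℝ, (x, (0 : ℝ)) ∈ f (rowS P) →
        ((0 : ℝ), y) ∈ f (colS Q) → (x, y) ∈ f (S a) := by
    intro P Q hP hQ hM x y hx hy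
    refine map_box_sub hA hf hP hQ hS (rowS_X P) (colS_Y Q) ?_ hx hy
    rintro p ⟨⟨-, h1, h2⟩, -, h3, h4⟩
    exact ⟨h1, h3, hM _ _ h2 h4⟩
  have neg : ∀ {P Q : ℕ → Prop}, rowS P ∈ Alg a → colS Q ∈ Alg a →
      (∀ k l, P k → Q l → ¬ M a k l) → ∀ x y : ℝ, (x, (0 : ℝ)) ∈ f (rowS P) →
        ((0 : ℝ), y) ∈ f (colS Q) → (x, y) ∉ f (S a) := by
    intro P Q hP hQ hM x y hx hy
    have := map_box_sub hA hf hP hQ hSc (rowS_X P) (colS_Y Q) (by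
      rintro p ⟨⟨-, h1, h2⟩, -, h3, h4⟩ hp
      exact hM _ _ h2 h4 hp.2.2) hx hy
    rwa [hf.map_compl _ hS] at this
  refine ⟨?_, ?_, ?_, ?_, ?_, ?_, ?_⟩
  · intro x
    simp only [Set.mem_ofPred_eq]
    rw [split_row n, hf.map_union _ (hA.union_mem _ (hA.union_mem _ (r 0) _ (r 1)) _ (r 2)) _ rt,
      hf.map_union _ (hA.union_mem _ (r 0) _ (r 1)) _ (r 2), hf.map_union _ (r 0) _ (r 1),
      Fin.exists_fin_succ, Fin.exists_fin_two]
    simp only [Set.mem_union, or_assoc]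
    rfl
  · intro y
    simp only [Set.mem_ofPred_eq]
    rw [split_col n, hf.map_union _ (hA.union_mem _ (hA.union_mem _ (c 0) _ (c 1)) _ (c 2)) _ ct,
      hf.map_union _ (hA.union_mem _ (c 0) _ (c 1)) _ (c 2), hf.map_union _ (c 0) _ (c 1),
      Fin.exists_fin_succ, Fin.exists_fin_two]
    simp only [Set.mem_union, or_assoc]
    rfl
  · intro i
    obtain ⟨x, hx, e⟩ := g_surj (3 * n + i)
    obtain ⟨⟨u, v⟩, hp⟩ := map_ne hA hf (r i) ⟨(x, 0), rfl, hx, e⟩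
    have h0 : v = 0 := map_X hf (r i) (rowS_X _) hp
    subst h0
    exact ⟨u, hp⟩
  · intro j
    obtain ⟨y, hy, e⟩ := g_surj (3 * n + j)
    obtain ⟨⟨u, v⟩, hp⟩ := map_ne hA hf (c j) ⟨(0, y), rfl, hy, e⟩
    have h0 : u = 0 := map_Y hf (c j) (colS_Y _) hp
    subst h0
    exact ⟨v, hp⟩
  · intro i j x hx y hy
    have hi := i.2
    have hj := j.2
    have key : M a (3 * n + i) (3 * n + j) ↔ (i = j ↔ n ∈ a) := by
      have e1 : (3 * n + (i : ℕ)) / 3 = n := by omega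
      have e2 : (3 * n + (j : ℕ)) / 3 = n := by omega
      simp [M, e1, e2, Fin.ext_iff]
    by_cases hm : (i = j ↔ n ∈ a)
    · exact iff_of_true (pos (r i) (c j) (by rintro k l rfl rfl; exact key.2 hm) x y hx hy) hm
    · exact iff_of_false
        (neg (r i) (c j) (by rintro k l rfl rfl h; exact hm (key.1 h)) x y hx hy) hm
  · intro i x hx y hy
    have hi := i.2
    exact pos (r i) ct (by rintro k l rfl hl; exact Or.inl (by omega)) x y hx hy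
  · intro j x hx y hy
    have hj := j.2
    exact neg rt (c j) (by rintro k l hk rfl; unfold M; omega) x y hx hy

/-- For every projective algebra `𝒰` with fewer than continuum many members (in particular for
every countable one) some countable, locally finite projective algebra is isomorphic to no
subalgebra of `𝒰`. -/
theorem result :
    ∀ 𝒰 : Set (Set (ℝ × ℝ)), IsProjAlg 𝒰 → Cardinal.mk 𝒰 < Cardinal.continuum →
      ∃ 𝒜 : Set (Set (ℝ × ℝ)), IsProjAlg 𝒜 ∧ 𝒜.Countable ∧ LocFin 𝒜 ∧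
        ¬ ∃ ℬ : Set (Set (ℝ × ℝ)), ℬ ⊆ 𝒰 ∧ IsProjAlg ℬ ∧
          ∃ f : Set (ℝ × ℝ) → Set (ℝ × ℝ), IsIso 𝒜 ℬ f := by
  intro 𝒰 _ hU
  let φ : 𝒰 × 𝒰 × 𝒰 → Set ℕ := fun t =>
    code (fun x y => (x, y) ∈ t.1.1) {x | (x, (0 : ℝ)) ∈ t.2.1.1} {y | ((0 : ℝ), y) ∈ t.2.2.1}
  have hns : ¬ Function.Surjective φ := by
    intro hs
    have h1 := Cardinal.mk_le_of_surjective hs
    have h2 : Cardinal.mk (𝒰 × 𝒰 × 𝒰) < Cardinal.continuum := by
      simp only [Cardinal.mk_prod, Cardinal.lift_id]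
      exact Cardinal.mul_lt_of_lt Cardinal.aleph0_le_continuum hU
        (Cardinal.mul_lt_of_lt Cardinal.aleph0_le_continuum hU hU)
    rw [Cardinal.mk_set_nat] at h1
    exact absurd (h1.trans_lt h2) (lt_irrefl _)
  obtain ⟨a, ha⟩ := not_forall.1 hns
  refine ⟨Alg a, Alg_alg a, Alg_countable a, Alg_locFin a, ?_⟩
  rintro ⟨ℬ, hBU, -, f, hf⟩
  apply ha
  refine ⟨(⟨f (S a), hBU (hf.bijOn.mapsTo (S_mem a))⟩,
    ⟨f (rowS fun k => 3 * 0 ≤ k), hBU (hf.bijOn.mapsTo (rowS_mem a (dec_ge 0)))⟩,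
    ⟨f (colS fun k => 3 * 0 ≤ k), hBU (hf.bijOn.mapsTo (colS_mem a (dec_ge 0)))⟩), ?_⟩
  exact code_eq (T := fun n => {x | (x, (0 : ℝ)) ∈ f (rowS fun k => 3 * n ≤ k)})
    (U := fun n => {y | ((0 : ℝ), y) ∈ f (colS fun k => 3 * n ≤ k)}) (blk_of_iso hf)

end Pool.Agent.Results.MP_3db952_lc.LocallyFinite
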